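import Pool.Agent.H8.Tw.Main

/-!
# Twists of odd hyperelliptic Jacobians by all characters of order `2 ^ m` with prime divisors of the
# conductor in a set of primes of positive density: the 2-primary part of `Ш`

Let `g ≥ 1`, and consider ALL polynomials `f = x ^ (2 g + 1) + a_(2 g - 1) x ^ (2 g - 1) + ... + a_0` with
integral coefficients, ordered by the height: `|a_i| ≤ B ^ (2 g + 1 - i)`, and the Jacobians `J`, of
dimension `g`, of the curves `y ^ 2 = f(x)`.

Theorem. There are a finite set `S` of primes and a constant `c > 0` such that for all large `B` at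
least `c` times the number of all `f` of height at most `B` have the following property for EVERY `m`.
Let `P_m(f, S)` be the explicit set of the primes `p` such that `f` is irreducible modulo `p` and `2` and
all `q ∈ S` are `2 ^ m`-th powers modulo `p`.

* The primes in `P_m(f, S)`, even those that are `1` modulo `2 ^ (m + 1)`, have positive lower density
  among all primes.
* For ALL products `N` of different primes in `P_m(f, S)` and ALL homomorphisms `R : Gal(ℚ) → GL_r(ℤ)`,
  for all `r`, with `R ^ (2 ^ m) = 1` that factor through `Gal(ℚ(ζ_N)/ℚ)`, the abelian variety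
  `A = J ⊗ ℤ ^ r` over `ℚ`, of dimension `g r`, satisfies `Ш(A/ℚ)[2^∞] = 0`, and multiplication by two is
  bijective on `A(ℚ)`, so that `A(ℚ)` is finite of odd order by the theorem of Mordell and Weil.

By the theorem of Kronecker and Weber these are all the `R` with abelian image of exponent dividing
`2 ^ m` that are ramified only at finitely many primes of `P_m(f, S)`. Examples of `A`:

* the twists of `J ⊗ ℤ[ζ]`, `ζ` a root of unity of order `2 ^ m`, by ALL characters `χ` of order `2 ^ m` of
  the conductors `N`: abelian varieties of dimension `g 2 ^ (m - 1)` with `ℤ[ζ]` as endomorphisms, for each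
  `N` as many as there are characters; for `m = 1` the quadratic twists `J_d`, `d` the product of any of
  the integers `± p = 1` modulo `4`, `p ∈ P_1(f, S)` (`d` may be negative);
* the restrictions of scalars to `ℚ` of the Jacobian over all abelian extensions of `ℚ` of exponent
  dividing `2 ^ m` that are ramified only in `P_m(f, S)`.

In the theorem `MP_a43263_nt.FormsOfJacobians` a class of fields `M` is given by local conditions; how many
fields it contains is not part of that statement. The library theorems on twists with a positive
density of primes (`MP_a43263_nt.PrimeTwistsTwoPart`, `MP_dfae13_nt.PrimeTwistsOfEveryMember`) are about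
the CM curves `y ^ 2 = x ^ 3 - x` and `y ^ 2 + y = x ^ 3`. New here: for a positive proportion of all `f`, of
every genus, and for every `m` at once, an explicit set of primes of positive density all whose
characters of order dividing `2 ^ m`, and their products, are admissible.

Proof. Let `M` be the subfield of `ℚ(ζ_N)` that is fixed by the elements which the automorphisms in the
kernel of `R` induce. `M` is Galois over `ℚ` of 2-power degree; the primes that do not divide `N` are
unramified; the Frobenius elements of `2` and of `q ∈ S` are `2 ^ m`-th powers in `Gal(ℚ(ζ_N)/ℚ)` and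
hence trivial on `M`, so that these primes split completely; as the decomposition group at `2` is
trivial, Hensel's lemma gives an embedding of `M` in `ℚ_2`. So `M` is in the class `C(f, S)` and the descent
of `Pool.Agent.H8.Sha` applies. For the density: `f` is irreducible modulo `2`, so a Frobenius element `σ`
at `2` in the splitting field of `f (x ^ (2 ^ m) + 1) (x ^ (2 ^ m) - 2) ∏ (x ^ (2 ^ m) - q)` permutes the
roots of `f` in one cycle, of odd length, and so does `σ ^ (2 ^ m)`, which fixes all the roots of the other
factors; Chebotarev's theorem is applied to `σ ^ (2 ^ m)`.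
-/

set_option autoImplicit false

namespace Pool.Agent.Results.MP_a43263_nt.CharacterTwists

open Polynomial Filter
open Pool.Agent.H8.Sha (Polys)
open Pool.Agent.H8.Tw (PrimeSet PosLowerDensity AbelianForms)

/-- The polynomials `f` of height at most `B`, irreducible over `ℚ`, such that for every `m` the primes
`p = 1` modulo `2 ^ (m + 1)` in `P_m(f, S)` have positive lower density, and for all finite sets `D` of
primes in `P_m(f, S)` all the forms of the powers of the Jacobian of `y ^ 2 = f(x)` that belong to
representations of `Gal(ℚ(ζ_N)/ℚ)`, `N` the product of the primes in `D`, of exponent dividing `2 ^ m`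
have no 2-part. -/
def GoodPolys (S : Finset ℕ) (g B : ℕ) : Set ℤ[X] :=
  {f ∈ Polys g B | Irreducible (f.map (Int.castRingHom ℚ)) ∧ ∀ m : ℕ,
    PosLowerDensity {p ∈ PrimeSet f S m | p ≡ 1 [MOD 2 ^ (m + 1)]} ∧
      ∀ D : Finset ℕ, (∀ p ∈ D, p ∈ PrimeSet f S m) → AbelianForms f D m}

/-- For every `g ≥ 1` there are a finite set `S` of primes and a positive constant `c` such that for all
large `B` at least `c` times the number of all the `f` of height at most `B` are irreducible over `ℚ` and
have the property: for every `m` the set of the primes `p = 1` modulo `2 ^ (m + 1)` such that `f` is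
irreducible modulo `p` and `2` and all `q ∈ S` are `2 ^ m`-th powers modulo `p` has positive lower
density, and for all products `N` of different primes `p` with the last two properties, all `r` and all
homomorphisms `R : Gal(ℚ) → GL_r(ℤ)` of exponent dividing `2 ^ m` that are trivial on the automorphisms
which fix the `N`-th roots of unity, the abelian variety `A = J ⊗ ℤ ^ r` over `ℚ`, `J` the Jacobian of
`y ^ 2 = f(x)`, satisfies: multiplication by two is bijective on `A(ℚ)`, and the 2-primary part of
`Ш(A/ℚ)` is zero. -/
theorem result (g : ℕ) (hg : 1 ≤ g) :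
    (∀ B : ℕ, 1 ≤ B → (Polys g B).Finite) ∧
    ∃ S : Finset ℕ, (∀ q ∈ S, q.Prime) ∧ 2 ∉ S ∧
      ∃ c : ℝ, 0 < c ∧ ∀ᶠ B : ℕ in atTop, 0 < (Polys g B).ncard ∧
        c * ((Polys g B).ncard : ℝ) ≤ ((GoodPolys S g B).ncard : ℝ) := by
  obtain ⟨h1, S, hS, hST, c, hc, h2⟩ := Pool.Agent.H8.Sha.allsig g hg ∅ (by simp)
  have h2S : 2 ∉ S := fun h => Finset.disjoint_left.1 hST h (Finset.mem_insert_self 2 ∅)
  refine ⟨h1, S, hS, h2S, c, hc, ?_⟩
  filter_upwards [h2, eventually_ge_atTop 1] with B hB hB1
  refine ⟨hB.1, hB.2.trans ?_⟩
  refine Nat.cast_le.2 (Set.ncard_le_ncard ?_ ((h1 B hB1).subset fun f hf => hf.1))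
  rintro f ⟨hf1, hf2, hf3, -, hf5⟩
  have hodd : Odd f.natDegree := ⟨g, hf1.degree⟩
  exact ⟨hf1, hf2, fun m => ⟨Pool.Agent.H8.Tw.dens hf1.monic hf2 hf3 hodd hS m, fun D hD =>
    Pool.Agent.H8.Tw.abelianForms hf1.monic hodd hf2 hf5 hS m D hD⟩⟩

end Pool.Agent.Results.MP_a43263_nt.CharacterTwists
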