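import Pool.Agent.H8.Sha.Fin
import Pool.Agent.H8.Sha.AllSig

/-!
# The forms over `ℚ` of the powers of the odd hyperelliptic Jacobians: the 2-primary part of `Ш`

Let `g ≥ 1`. We consider ALL polynomials `f = x ^ (2 g + 1) + a_(2 g - 1) x ^ (2 g - 1) + ... + a_0` with
integral coefficients, ordered by the height: `|a_i| ≤ B ^ (2 g + 1 - i)`, and the Jacobians `J`, of
dimension `g`, of the curves `y ^ 2 = f(x)`.

For `f` and a finite set `S` of primes let `C(f, S)` be the class of all the number fields `M` which are
Galois over `ℚ` of 2-power degree, have an embedding in `ℚ_2`, in which all `q ∈ S` split completely and in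
which only primes are ramified modulo which `f` is irreducible. There is no condition at the infinite
place: `M` may be totally real or totally complex. By Chebotarev's theorem this is an infinite class
(closed under composita), which contains fields with nonabelian groups.

Theorem. For every finite set `T` of primes there are a finite set `S` of primes, disjoint from `T`, and a
constant `c > 0` such that for all large `B` at least `c` times the number of all `f` of height at most `B`
are irreducible over `ℚ`, modulo `2` and modulo all `p ∈ T`, and the following holds for the Jacobian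
`J` of `y ^ 2 = f(x)`: for ALL fields `M` in `C(f, S)`, for ALL `r` and ALL homomorphisms
`R : Gal(ℚ) → GL_r(ℤ)` which are trivial on the automorphisms that fix `M`, the abelian variety
`A = J ⊗ ℤ ^ r` over `ℚ`, of dimension `g r`, satisfies `Ш(A/ℚ)[2^∞] = 0`, and multiplication by two is
bijective on `A(ℚ)`, so that `A(ℚ)` is finite of odd order by the theorem of Mordell and Weil.

These `A` are the abelian varieties over `ℚ` that become isomorphic to `J ^ r` over `M` by an
isomorphism whose cocycle has values in `GL_r(ℤ) ⊆ Aut(J ^ r)`; if `End(J) = ℤ` over `M`, which holds for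
almost all `f`, they are all the forms of `J ^ r` that are split by `M`. For example `A` is the restriction of
scalars to `ℚ` of the Jacobian over any subfield `L ⊆ M` (a permutation representation; `L` need not be
Galois over `ℚ`), the quadratic twist of `J` by `√d ∈ M`, `d` positive or negative, and the part of `J`
over `M` which belongs to an irreducible representation of the group of `M` over `ℚ`, for example the
faithful one of degree 2 of a dihedral group, with any invariant lattice in it.

The earlier theorems about forms that are split by nonabelian extensions (`MP_a43263_nt.TwoGroupForms`)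
concern the powers of elliptic curves with a condition on the given curve. Here `J` has any dimension, and
one set of `f` of positive proportion works for all fields in `C(f, S)` and for all lattices. Also the
statement on `J` over `M` itself is more general than the earlier ones: `MP_ac3185_nt.RankZeroUniformly` has
real `M` only, and `MP_f80667_ag.TwoExtensionsAllSignatures` has `g = 1` only.

Proof. Over `M` itself multiplication by two is bijective on `J(M)` and `Ш(J/M)[2^∞] = 0`
(`Pool.Agent.N874.TC.final` on the explicit 2-Selmer groups, and the descent of project JB). A cocycle `c`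
of `Gal(ℚ)` with values in `A` restricts to `r` cocycles over `M` with values in `J`, which are locally
trivial if `c` is; so `c` is a coboundary on the normal subgroup `N = Gal(M)`, and we may assume that it is
trivial on `N`. Its values are then invariant under `N`, that is in `J(M) ^ r` (Galois descent for classes of
divisors), on which multiplication by the index `2 ^ n` of `N` is bijective; the sum over the classes
of `N` shows that `c` is a coboundary.
-/

set_option autoImplicit false

namespace Pool.Agent.Results.MP_a43263_nt.FormsOfJacobians

open Polynomial Filter NumberField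
open Pool.Agent.H8.Sha (Gal Polys IrreducibleMod InClass)
open Pool.Agent.H8.Sha.Form (NoTwoPart)

/-- For all the fields `M` in `C(f, S)` and all homomorphisms `R : Gal(ℚ) → GL_r(ℤ)`, for all `r`, which
are trivial on the automorphisms that fix `M` (embedded by `e`), the abelian variety `A = J ⊗ ℤ ^ r` has no
2-part: multiplication by two is bijective on `A(ℚ)` and `Ш(A/ℚ)[2^∞] = 0`. -/
def AllForms (S : Finset ℕ) (f : ℤ[X]) : Prop :=
  ∀ (M : Type) [Field M] [NumberField M], InClass f S M → ∀ e : M →+* SeparableClosure ℚ,
    ∀ (r : ℕ) (R : Gal ℚ →* (Matrix (Fin r) (Fin r) ℤ)ˣ),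
      (∀ σ : Gal ℚ, (∀ x : M, σ (e x) = e x) → R σ = 1) → NoTwoPart f R

/-- The polynomials `f` of height at most `B` which are irreducible over `ℚ`, modulo `2` and modulo all
`p ∈ T`, such that all the forms of the powers of the Jacobian of `y ^ 2 = f(x)` which are split by a
field in `C(f, S)` have no 2-part. -/
def GoodPolys (S T : Finset ℕ) (g B : ℕ) : Set ℤ[X] :=
  {f ∈ Polys g B | Irreducible (f.map (Int.castRingHom ℚ)) ∧ IrreducibleMod f 2 ∧
    (∀ p ∈ T, IrreducibleMod f p) ∧ AllForms S f}

/-- For every `g ≥ 1` and every finite set `T` of primes there are a finite set `S` of primes, disjoint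
from `T`, and a positive constant `c` such that for all large `B` at least `c` times the number of all the
`f` of height at most `B` are irreducible over `ℚ`, modulo `2` and modulo all `p ∈ T`, and the Jacobian
`J` of `y ^ 2 = f(x)` has the property that for all the fields `M` in `C(f, S)`, all `r` and all
homomorphisms `R : Gal(ℚ) → GL_r(ℤ)` trivial on the automorphisms that fix `M` the abelian variety
`A = J ⊗ ℤ ^ r` over `ℚ` satisfies: multiplication by two is bijective on `A(ℚ)`, and the 2-primary part
of `Ш(A/ℚ)` is zero. -/
theorem result (g : ℕ) (hg : 1 ≤ g) (T : Finset ℕ) (hT : ∀ p ∈ T, p.Prime) :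
    (∀ B : ℕ, 1 ≤ B → (Polys g B).Finite) ∧
    ∃ S : Finset ℕ, (∀ q ∈ S, q.Prime) ∧ Disjoint S T ∧
      ∃ c : ℝ, 0 < c ∧ ∀ᶠ B : ℕ in atTop, 0 < (Polys g B).ncard ∧
        c * ((Polys g B).ncard : ℝ) ≤ ((GoodPolys S T g B).ncard : ℝ) := by
  obtain ⟨h1, S, hS, hST, c, hc, h2⟩ := Pool.Agent.H8.Sha.allsig g hg T hT
  refine ⟨h1, S, hS, Finset.disjoint_of_subset_right (Finset.subset_insert 2 T) hST, c, hc, ?_⟩
  filter_upwards [h2, eventually_ge_atTop 1] with B hB hB1
  refine ⟨hB.1, hB.2.trans ?_⟩
  refine Nat.cast_le.2 (Set.ncard_le_ncard ?_ ((h1 B hB1).subset fun f hf => hf.1))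
  rintro f ⟨hf1, hf2, hf3, hf4, hf5⟩
  refine ⟨hf1, hf2, hf3, hf4, ?_⟩
  intro M _ _ hM e r R hR
  obtain ⟨n, hn⟩ := hM.degree
  have hgal : IsGalois ℚ M := hM.galois
  obtain ⟨h3, h4⟩ := hf5 M hM
  have hodd : Odd f.natDegree := ⟨g, hf1.degree⟩
  exact Pool.Agent.H8.Sha.forms f R hf1.monic hodd hf2 M n hn h3 h4 e hR

end Pool.Agent.Results.MP_a43263_nt.FormsOfJacobians
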