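import Pool.Agent.H8.ShaL.Main
import Pool.Graph.R_pool_sql_team_seeded_b0a926ef.R901.LD.NfC

/-!
# The forms of `E^g` that are split by an `l`-extension of `ℚ`, `l` odd

`E : y² = x³ + a x + b` is an elliptic curve over `ℚ` and `l` is an odd prime such that the `l`-Selmer
group of `E` over `ℚ` is trivial: `E(ℚ)` is finite of order prime to `l` and `Ш(E/ℚ)[l] = 0`. (By
Kolyvagin's theorem every `E` with `L(E, 1) ≠ 0` satisfies this for all but finitely many `l`.) Let `K` be a
Galois extension of `ℚ` of degree `l ^ n`, with ANY Galois group, abelian or not, such that the primes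
which divide `2 l (4 a³ + 27 b²)` split completely in `K` and the number of the points of `E` modulo the
primes that ramify in `K` is prime to `l`. Let `M = ℤ^g` be a lattice, of any rank, with an action `R` of the
Galois group of `ℚ` that is trivial on the automorphisms that fix `K`.

Theorem. For the abelian variety `A = E ⊗ M` over `ℚ`, of dimension `g`, the group `A(ℚ)` is finite of
order prime to `l`, and the `l`-primary part of `Ш(A/ℚ)` is zero.

If `E` has no complex multiplication then these `A` are all the abelian varieties over `ℚ` that become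
isomorphic to a power of `E` over `K`. For example, `A` is the restriction of scalars of `E` over any
subfield of `K`, or, for `K` cyclic of degree `l`, a variety of dimension `l - 1` with `ℤ[ζ_l]`
as endomorphisms (`M` an ideal of `ℤ[ζ_l]`), or, for a nonabelian group, a variety that belongs to a faithful
irreducible representation and an arbitrary invariant lattice in it, such as the abelian varieties of
dimension `l (l - 1)` which belong to the groups of order `l ^ 3`. The dual of `A` belongs to the
contragredient of `R`, so that the theorem applies to it.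

The case `l = 2` is `MP_a43263_nt.TwoGroupForms`, where quadratic resolvents and square classes
are available; for odd `l` the triviality of the `l`-Selmer group of `E` over `K` is the theorem
`MP_009fd8_ag.OddOrderGaloisGroups`. Here the forms over `ℚ` are treated: a locally trivial cocycle with
values in `A` becomes a coboundary over `K`, and then its values may be assumed to be in `E(K)^g`, where
`l` acts bijectively; the sum over the Galois group of `K` shows that it is a coboundary over `ℚ`.
-/

set_option autoImplicit false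

open NumberField IsDedekindDomain WeierstrassCurve

namespace Pool.Agent.Results.MP_a43263_nt.OddOrderForms

open scoped Classical

open Pool.Agent.TH841.SH.D (Sha Pt act Gal)

/-- The equation `y² = x³ + a x + b` over the integers. -/
def E (a b : ℤ) : WeierstrassCurve ℤ := ⟨0, 0, 0, a, b⟩

/-- The curve given by the equation of `W` over the ring `R`. -/
abbrev base (W : WeierstrassCurve ℤ) (R : Type) [CommRing R] : WeierstrassCurve R :=
  W.map (Int.castRingHom R)

/-- The number of the pairs `(x, y) ∈ (ℤ/p)²` with `y² = x³ + a x + b`. -/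
noncomputable def pointCount (a b : ℤ) (p : ℕ) : ℕ :=
  Nat.card {v : ZMod p × ZMod p // v.2 ^ 2 = v.1 ^ 3 + (a : ZMod p) * v.1 + b}

/-- The `l`-Selmer group of the elliptic curve over `ℚ` is trivial: the group of the rational points is
finite of order prime to `l`, and the Tate-Shafarevich group has no element of order `l`. -/
structure TrivialSelmer (W : WeierstrassCurve ℤ) (l : ℕ) : Prop where
  points : Finite (base W ℚ).toAffine.Point
  coprime : ¬ l ∣ Nat.card (base W ℚ).toAffine.Point
  sha : ∀ s : Sha (base W ℚ), l • s = 0 → s = 0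

/-- The prime `p` is unramified in `K`: it has valuation one at all the places above it. -/
def Unramified (K : Type) [Field K] [NumberField K] (p : ℕ) : Prop :=
  ∀ v : HeightOneSpectrum (𝓞 K), (p : 𝓞 K) ∈ v.asIdeal →
    v.valuation K (p : K) = WithZero.exp (-1 : ℤ)

/-- The prime `p` splits completely in `K`: it is unramified and the residue fields of the places
above it are the prime field. -/
def SplitsCompletely (K : Type) [Field K] [NumberField K] (p : ℕ) : Prop :=
  Unramified K p ∧ ∀ v : HeightOneSpectrum (𝓞 K), (p : 𝓞 K) ∈ v.asIdeal →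
    Ideal.absNorm v.asIdeal = p

/-- `K` is a Galois extension of `ℚ` of degree a power of `l`, the primes dividing
`2 l (4 a³ + 27 b²)` split completely in `K`, and every other prime `p` is unramified in `K`, or the
number `N_p + 1` of the points of `E` modulo `p` (with the point at infinity) is not divisible
by `l`. -/
structure IsAdmissibleField (a b : ℤ) (l : ℕ) (K : Type) [Field K] [NumberField K] : Prop where
  galois : IsGalois ℚ K
  degree : ∃ n : ℕ, Module.finrank ℚ K = l ^ n
  split : ∀ p : ℕ, p.Prime → (p : ℤ) ∣ 2 * l * (4 * a ^ 3 + 27 * b ^ 2) → SplitsCompletely K p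
  ramified : ∀ p : ℕ, p.Prime → ¬ (p : ℤ) ∣ 2 * l * (4 * a ^ 3 + 27 * b ^ 2) →
    Unramified K p ∨ ¬ l ∣ pointCount a b p + 1

section tensor

/-! ### The abelian variety `A = E ⊗ M`, `M = ℤ^g`

Its points over an algebraic closure of `ℚ` are the `g`-tuples of points of `E`; the Galois group of `ℚ`
acts on them by its action on `E` and the matrices `R(σ)`. -/

/-- The action of an integral matrix on `ℤ^g ⊗ G = G^g`. -/
def mat {G : Type} [AddCommGroup G] {g : ℕ} (A : Matrix (Fin g) (Fin g) ℤ) (P : Fin g → G) :
    Fin g → G := fun i => ∑ j, A i j • P j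

variable {g : ℕ} (W : WeierstrassCurve ℤ) (R : Gal ℚ →* GL (Fin g) ℤ)

/-- The points of `A` over an extension of `ℚ` over which the action on `M` is trivial. -/
abbrev PtA (g : ℕ) (L : Type) [Field L] [Algebra ℚ L] : Type := Fin g → Pt (base W ℚ) L

/-- The action of the Galois group on the points of `A`: `σ` applied to the coordinates, and then the
matrix `R(σ)`. -/
noncomputable def actA (σ : Gal ℚ) (P : PtA W g (AlgebraicClosure ℚ)) :
    PtA W g (AlgebraicClosure ℚ) :=
  mat (R σ : Matrix (Fin g) (Fin g) ℤ) (fun i => act (base W ℚ) σ.toAlgHom (P i))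

/-- `A(ℚ)`. -/
def ptsA : Set (PtA W g (AlgebraicClosure ℚ)) := {P | ∀ σ : Gal ℚ, actA W R σ P = P}

/-- `f` is a continuous cocycle with values in `A`: `f (σ τ) = f σ + σ (f τ)`. -/
def IsCocycle (f : Gal ℚ → PtA W g (AlgebraicClosure ℚ)) : Prop :=
  IsLocallyConstant f ∧ ∀ σ τ : Gal ℚ, f (σ * τ) = f σ + actA W R σ (f τ)

/-- `f` is a coboundary: `f σ = σ P - P`. -/
def IsCoboundary (f : Gal ℚ → PtA W g (AlgebraicClosure ℚ)) : Prop :=
  ∃ P : PtA W g (AlgebraicClosure ℚ), ∀ σ : Gal ℚ, f σ = actA W R σ P - P

/-- For every embedding of the algebraic closures the restriction of `f` to the absolute Galois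
group of `K` is a coboundary: `f σ = τ P - P` for `τ` in this group with restriction `σ`. -/
def LocTriv (K : Type) [Field K] [Algebra ℚ K] (f : Gal ℚ → PtA W g (AlgebraicClosure ℚ)) : Prop :=
  ∀ ι : AlgebraicClosure ℚ →ₐ[ℚ] AlgebraicClosure K, ∃ P : PtA W g (AlgebraicClosure K),
    ∀ (τ : Gal K) (σ : Gal ℚ), (∀ x, τ (ι x) = ι (σ x)) →
      (fun i => act (base W ℚ) ι (f σ i)) = mat (R σ : Matrix (Fin g) (Fin g) ℤ)
        (fun i => act (base W ℚ) (τ.toAlgHom.restrictScalars ℚ) (P i)) - P

/-- `f` is a continuous cocycle that is locally trivial at all the places of `ℚ`; its class is an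
element of `Ш(A/ℚ)`, and this is zero if and only if `f` is a coboundary. -/
def IsShaCocycle (f : Gal ℚ → PtA W g (AlgebraicClosure ℚ)) : Prop :=
  IsCocycle W R f ∧ (∀ (p : ℕ) [Fact p.Prime], LocTriv W R ℚ_[p] f) ∧ LocTriv W R ℝ f

end tensor

theorem base_eq (a b : ℤ) (F : Type) [Field F] :
    base (E a b) F = Pool.Agent.R901.LD.WK a b F := by
  unfold base E Pool.Agent.R901.LD.WK
  ext <;> simp

/-- **Theorem.** Let `E : y² = x³ + a x + b` be an elliptic curve over `ℚ` with trivial `l`-Selmer
group, `l` an odd prime, let `K` be a Galois extension of `ℚ` of degree a power of `l` (with any Galois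
group) in which the primes that divide `2 l (4 a³ + 27 b²)` split completely and such that the number
of the points of `E` modulo the primes that ramify in `K` is prime to `l`. Let `M = ℤ^g` be a
lattice, of any rank, with an action `R` of the Galois group of `ℚ` that is trivial on the automorphisms
that fix `K` (embedded by `e`). Then for the abelian variety `A = E ⊗ M` over `ℚ` the group `A(ℚ)` is
finite of order prime to `l`, and the `l`-primary part of `Ш(A/ℚ)` is zero: a locally trivial cocycle `f`
such that `l ^ k f` is a coboundary is a coboundary. -/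
theorem result (a b : ℤ) (hE : 4 * a ^ 3 + 27 * b ^ 2 ≠ 0) (l : ℕ) [hl : Fact l.Prime]
    (hl2 : l ≠ 2) (hS : TrivialSelmer (E a b) l) (K : Type) [Field K] [NumberField K]
    (hK : IsAdmissibleField a b l K) (g : ℕ) (R : Gal ℚ →* GL (Fin g) ℤ)
    (e : K →+* AlgebraicClosure ℚ) (hR : ∀ σ : Gal ℚ, (∀ x : K, σ (e x) = e x) → R σ = 1) :
    Finite (ptsA (E a b) R) ∧ ¬ l ∣ Nat.card (ptsA (E a b) R) ∧
      ∀ f, IsShaCocycle (E a b) R f → ∀ k : ℕ, IsCoboundary (E a b) R (l ^ k • f) →
        IsCoboundary (E a b) R f := by
  have hA : Pool.Agent.R901.LD.AdmF a b l K := by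
    refine ⟨hK.galois, hK.degree, fun p hp hd v hv => ?_, fun p hp hd => ?_⟩
    · obtain ⟨h1, h2⟩ := hK.split p hp hd
      exact ⟨h1 v hv, h2 v hv⟩
    · rcases hK.ramified p hp hd with h | h
      · exact Or.inr h
      · exact Or.inl h
  have hT : Pool.Agent.R901.LD.TrivSel a b l := by
    obtain ⟨f⟩ := Pool.Agent.R901.LD.equiv_WK a b ℚ
    obtain ⟨h1, h2, h3⟩ := hS
    rw [base_eq] at h1 h2 h3
    have f' : Pool.Agent.R901.LD.SP a b ℚ ≃
      (Pool.Agent.R901.LD.WK a b ℚ).toAffine.Point := f
    refine ⟨Finite.of_equiv _ f'.symm, ?_, h3⟩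
    rw [Nat.card_congr f']
    exact h2
  obtain ⟨h1, h2, h3⟩ := Pool.Agent.R901.LD.sub_main hl.1 hl2 hE hT K hA K
  obtain ⟨h4, h5⟩ := Pool.Agent.R901.LD.fin_WK h1
  rw [← base_eq] at h4 h5 h3
  have hgal : IsGalois ℚ K := hK.galois
  obtain ⟨n, hn⟩ := hK.degree
  obtain ⟨a1, a2, a3⟩ := Pool.Agent.H8.ShaL.main (E a b) l hl.1 K n hn h3 h4 (by
    rw [Nat.Prime.coprime_iff_not_dvd hl.1, h5]
    exact h2) g R e hR
  refine ⟨a1, ?_, fun f hf k hk => a3 f hf k hk⟩
  rw [← Nat.Prime.coprime_iff_not_dvd hl.1]
  exact a2

end Pool.Agent.Results.MP_a43263_nt.OddOrderForms
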