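import Pool.Agent.H8.Sha.Fin
import Pool.Graph.R_pool_sql_team_seeded_63374d34.Results.MP_009fd8_ag.JacobiansOverTwoExtensions

/-!
# For every lattice with an action of a 2-group: the abelian varieties `J ⊗ Λ` over `ℚ`, for a positive
# proportion of all odd hyperelliptic Jacobians `J` of every genus

Let `g ≥ 1` and let `M` be ANY Galois extension of `ℚ` of degree `2 ^ n` which has an embedding in `ℝ` and
one in `ℚ_2`; its group may be nonabelian, and there is no condition on the ramification of `M`
outside of 2. We consider ALL polynomials `f = x ^ (2 g + 1) + a_(2 g - 1) x ^ (2 g - 1) + ... + a_0` with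
integral coefficients, ordered by the height: `|a_i| ≤ B ^ (2 g + 1 - i)`, and the Jacobians `J`, of
dimension `g`, of the curves `y ^ 2 = f(x)`.

Theorem. For a positive proportion of them `f` is irreducible and, for ALL `r` and ALL homomorphisms
`R : Gal(ℚ) → GL_r(ℤ)` which are trivial on the automorphisms that fix `M`, the abelian variety
`A = J ⊗ ℤ ^ r` over `ℚ`, of dimension `g r`, satisfies `Ш(A/ℚ)[2^∞] = 0`, and multiplication by two is
bijective on `A(ℚ)`, so that `A(ℚ)` is finite of odd order by the theorem of Mordell and Weil.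

So for a given homomorphism `R` of the Galois group of `ℚ` onto a finite 2-group of integral matrices, trivial
on the decomposition groups at `∞` and `2`, the variety `J ⊗ ℤ ^ r` has no 2-part for a positive
proportion of all `J` of dimension `g`: the abelian varieties over `ℚ` in the family of the forms, of the type
`R`, of the powers of the Jacobians.

In `MP_a43263_nt.FormsOfJacobians` the order of the quantifiers is the other one: there a set of `f` of
positive proportion works for all fields `M` in an infinite class `E(f, S)`, but only those primes are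
ramified in `M` modulo which `f` is irreducible and all primes in `S` split completely in `M`; here
`M` is given first and arbitrary. Neither theorem contains the other.

Proof. Over `M` multiplication by two is bijective on `J(M)` and `Ш(J/M)[2^∞] = 0` for a positive
proportion of the `f` (`MP_009fd8_ag.JacobiansOverTwoExtensions`). The descent from `M` to `ℚ` is
that of `FormsOfJacobians`.
-/

set_option autoImplicit false

namespace Pool.Agent.Results.MP_a43263_nt.TwoGroupLattices

open Polynomial Filter IsDedekindDomain NumberField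
open Pool.Agent.H8.Sha (Gal)
open Pool.Agent.H8.Sha.Form (NoTwoPart)

/-- `f` is a monic integral polynomial of degree `2 g + 1` without term of degree `2 g` and of height at
most `B`. -/
structure IsPoly (g B : ℕ) (f : ℤ[X]) : Prop where
  monic : f.Monic
  degree : f.natDegree = 2 * g + 1
  trace : f.coeff (2 * g) = 0
  height : ∀ j ≤ 2 * g, |f.coeff j| ≤ (B : ℤ) ^ (2 * g + 1 - j)

/-- The polynomials `f` of height at most `B`. -/
def Polys (g B : ℕ) : Set ℤ[X] := {f | IsPoly g B f}

/-- The polynomials `f` of height at most `B` which are irreducible over `ℚ` such that, for all `r` and all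
homomorphisms `R : Gal(ℚ) → GL_r(ℤ)` which are trivial on the automorphisms that fix `M` (embedded by `e`),
the abelian variety `A = J ⊗ ℤ ^ r` has no 2-part: multiplication by two is bijective on `A(ℚ)` and
`Ш(A/ℚ)[2^∞] = 0`. -/
def GoodPolys (M : Type) [Field M] (g B : ℕ) : Set ℤ[X] :=
  {f ∈ Polys g B | Irreducible (f.map (Int.castRingHom ℚ)) ∧
    ∀ (e : M →+* SeparableClosure ℚ) (r : ℕ) (R : Gal ℚ →* (Matrix (Fin r) (Fin r) ℤ)ˣ),
      (∀ σ : Gal ℚ, (∀ x : M, σ (e x) = e x) → R σ = 1) → NoTwoPart f R}

/-- For every `g ≥ 1` and every Galois extension `M` of `ℚ` of degree `2 ^ n` which can be embedded in `ℝ`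
and in `ℚ_2` there is a positive constant `c` such that for all large `B` at least `c` times the number of
all the `f` of height at most `B` are irreducible and the Jacobian `J` of `y ^ 2 = f(x)` is such that, for
all `r` and all homomorphisms `R : Gal(ℚ) → GL_r(ℤ)` trivial on the automorphisms that fix `M`, the abelian
variety `A = J ⊗ ℤ ^ r` over `ℚ` satisfies: multiplication by two is bijective on `A(ℚ)`, and the
2-primary part of `Ш(A/ℚ)` is zero. -/
theorem result (g : ℕ) (hg : 1 ≤ g) (M : Type) [Field M] [NumberField M] [IsGalois ℚ M] (n : ℕ)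
    (hn : Module.finrank ℚ M = 2 ^ n) (h2 : Nonempty (M →+* ℚ_[2])) (hr : Nonempty (M →+* ℝ)) :
    (∀ B : ℕ, 1 ≤ B → (Polys g B).Finite) ∧
    ∃ c : ℝ, 0 < c ∧ ∀ᶠ B : ℕ in atTop, 0 < (Polys g B).ncard ∧
      c * ((Polys g B).ncard : ℝ) ≤ ((GoodPolys M g B).ncard : ℝ) := by
  have hpol : ∀ B, Polys g B =
      Pool.Agent.Results.MP_009fd8_ag.JacobiansOverTwoExtensions.Polys g B := by
    intro B
    ext f
    exact ⟨fun h => ⟨h.monic, h.degree, h.trace, h.height⟩,
      fun h => ⟨h.monic, h.degree, h.trace, h.height⟩⟩
  obtain ⟨h1, c, hc, h3⟩ :=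
    Pool.Agent.Results.MP_009fd8_ag.JacobiansOverTwoExtensions.result g hg M n hn h2 hr
  refine ⟨fun B hB => hpol B ▸ h1 B hB, c, hc, ?_⟩
  filter_upwards [h3, eventually_ge_atTop 1] with B hB hB1
  rw [hpol]
  refine ⟨hB.1, hB.2.trans ?_⟩
  have hsub : Pool.Agent.Results.MP_009fd8_ag.JacobiansOverTwoExtensions.TrivialTwoPart M g B ⊆
      GoodPolys M g B := by
    rintro f ⟨hf1, hf2, hf3⟩
    refine ⟨by rw [hpol]; exact hf1, hf2, fun e r R hR => ?_⟩
    have hodd : Odd f.natDegree := ⟨g, hf1.degree⟩
    exact Pool.Agent.H8.Sha.forms f R hf1.monic hodd hf2 M n hn hf3.1 hf3.2 e hR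
  exact_mod_cast Set.ncard_le_ncard hsub ((h1 B hB1).subset fun f hf => by
    rw [← hpol]
    exact hf.1)

end Pool.Agent.Results.MP_a43263_nt.TwoGroupLattices
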